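import Pool.Agent.Helper50.KP.GoalsF

/-! # Packet KP-HKI (MP_5a63b6_lc): a hook with a band of value 1 is not active -/

set_option autoImplicit false

namespace Pool.Agent.Helper95.KP

open Pool.Agent.Helper50.KP

section

variable {G : Type} [Group G]

theorem vl_cj (g : G) (b : G × G) : vl (cj g b) = g * vl b * g⁻¹ := by
  simp only [vl, cj]
  group

theorem cj_one : (cj (1 : G)) = id := by
  funext b
  simp [cj]

theorem repl (L₁ L₂ : List (G × G)) (x x' : G × G) (hx : vl x = 1) (hx' : vl x' = 1) (j : ℕ)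
    (z : G × G) (h : (L₁ ++ x :: L₂)[j]? = some z) :
    ∃ z', (L₁ ++ x' :: L₂)[j]? = some z' ∧ (vl z = 1 → vl z' = 1) ∧ (vl z ≠ 1 → z' = z) := by
  rcases lt_trichotomy j L₁.length with hj | hj | hj
  · rw [List.getElem?_append_left hj] at h ⊢
    exact ⟨z, h, fun h => h, fun _ => rfl⟩
  · subst hj
    rw [List.getElem?_append_right le_rfl, Nat.sub_self, List.getElem?_cons_zero] at h ⊢
    have hz : x = z := by simpa using h
    subst hz
    exact ⟨x', rfl, fun _ => hx', fun h => absurd hx h⟩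
  · rw [List.getElem?_append_right hj.le] at h ⊢
    obtain ⟨i, hi⟩ : ∃ i, j - L₁.length = i + 1 := ⟨j - L₁.length - 1, by omega⟩
    rw [hi, List.getElem?_cons_succ] at h ⊢
    exact ⟨z, h, fun h => h, fun _ => rfl⟩

theorem split_at (B : List (G × G)) (k : ℕ) (x : G × G) (h : B[k]? = some x) :
    (B.take k).length = k ∧ B = B.take k ++ x :: B.drop (k + 1) := by
  obtain ⟨hk, hx⟩ := List.getElem?_eq_some_iff.1 h
  refine ⟨List.length_take_of_le hk.le, ?_⟩
  rw [← hx, ← List.drop_eq_getElem_cons hk, List.take_append_drop]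

end

theorem gHKI (hHKF : Pool.Agent.Helper50.KP.HKF) : Pool.Agent.Helper50.KP.HKI := by
  intro G _ k m B t x y hx hy hv
  obtain ⟨l1, e1⟩ := split_at B k x hx
  have hy' : (B.drop (k + 1))[m]? = some y := by
    rw [List.getElem?_drop, ← hy]
    congr 1
    omega
  obtain ⟨l2, e2⟩ := split_at (B.drop (k + 1)) m y hy'
  rw [e2] at e1
  generalize B.take k = B₁ at l1 e1
  generalize (B.drop (k + 1)).take m = B₂ at l2 e1
  generalize (B.drop (k + 1)).drop (m + 1) = B₃ at e1
  clear hx hy hy' e2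
  subst e1
  rcases hv with hv | hv
  · set s : G := (vl y)⁻¹ * t * vl y with hs
    have h := hHKF G k m B₁ B₂ B₃ x y t t s s t l1 l2 (by rw [hv]; group) hs (by rw [hv]; group)
      (by rw [mul_inv_cancel, cj_one, hs]; simp only [id]; group)
    rw [inv_mul_cancel, mul_inv_cancel, cj_one, show t⁻¹ * s * s⁻¹ * t = 1 by group, cj_one,
      List.map_id, List.map_id] at h
    refine ⟨_, h, by simp, ?_⟩
    intro j z hz
    exact repl B₁ _ x _ hv (by rw [vl_cj, hv]; group) j z hz
  · set s : G := (vl x)⁻¹ * t * vl x with hs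
    have h := hHKF G k m B₁ B₂ B₃ x y t s s t t l1 l2 hs (by rw [hv]; group)
      (by rw [hs]; group)
      (by rw [vl_cj, hv]; group)
    rw [inv_mul_cancel, cj_one, show 1 * s⁻¹ * s = 1 by group, cj_one,
      List.map_id, List.map_id] at h
    refine ⟨_, h, by simp, ?_⟩
    intro j z hz
    have h' := repl (B₁ ++ x :: B₂) B₃ y (cj (t * s⁻¹) y) hv (by rw [vl_cj, hv]; group) j z
      (by simpa using hz)
    simpa using h'

end Pool.Agent.Helper95.KP
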